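import Pool.Agent.H.MP_c7c9a4_al.Main

set_option autoImplicit false

namespace Pool.Agent.Results.MP_c7c9a4_al.Yes

/-- Words over `A ∪ A⁻¹`; the letter `(a, true)` is `a` and `(a, false)` is its inverse. -/
abbrev Word (A : Type) := List (A × Bool)

/-- Formal inverse of a word. -/
def inv {A : Type} (u : Word A) : Word A := (u.map fun l => (l.1, !l.2)).reverse

/-- The Vagner pairs together with the defining relations `R`. -/
def Rel {A : Type} (R : Set (Word A × Word A)) (x y : FreeMonoid (A × Bool)) : Prop :=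
  (∃ u : Word A, x = .ofList (u ++ inv u ++ u) ∧ y = .ofList u) ∨
  (∃ u v : Word A, x = .ofList (u ++ inv u ++ (v ++ inv v)) ∧
    y = .ofList (v ++ inv v ++ (u ++ inv u))) ∨
  (x.toList, y.toList) ∈ R

/-- The inverse monoid `Inv⟨A | R⟩`. -/
abbrev InvM {A : Type} (R : Set (Word A × Word A)) := (conGen (Rel R)).Quotient

/-- The element represented by a word. -/
def proj {A : Type} (R : Set (Word A × Word A)) (w : Word A) : InvM R :=
  (conGen (Rel R)).mk' (.ofList w)

/-- The least congruence whose quotient is a group. -/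
def sigma (M : Type) [Monoid M] : Con M := sInf {c : Con M | ∀ x : M, IsUnit (c.mk' x)}

/-- Edges of the Cayley graph. -/
def Edge {A : Type} (R : Set (Word A × Word A)) (s t : InvM R) : Prop :=
  ∃ a : A × Bool, t = s * proj R [a]

/-- The strongly connected component of `w w⁻¹` in the Cayley graph. -/
def Vertex {A : Type} (R : Set (Word A × Word A)) (w : Word A) : Type :=
  {s : InvM R // Relation.ReflTransGen (Edge R) (proj R (w ++ inv w)) s ∧
    Relation.ReflTransGen (Edge R) s (proj R (w ++ inv w))}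

/-- The Schützenberger graph of `w`, as an undirected graph. -/
def Schutz {A : Type} (R : Set (Word A × Word A)) (w : Word A) : SimpleGraph (Vertex R w) :=
  SimpleGraph.fromRel fun s t => Edge R s.1 t.1

/-- A connected graph quasi-isometric to a tree. -/
def TreeLike {V : Type} (Γ : SimpleGraph V) : Prop :=
  Γ.Connected ∧ ∃ (T : Type) (H : SimpleGraph T), H.IsTree ∧ ∃ (ψ : V → T) (k K c C m : ℝ),
    0 < k ∧ 0 < K ∧ 0 ≤ c ∧ 0 ≤ C ∧ 0 ≤ m ∧
    (∀ x y, k * Γ.dist x y - c ≤ H.dist (ψ x) (ψ y) ∧ H.dist (ψ x) (ψ y) ≤ K * Γ.dist x y + C) ∧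
    ∀ t, ∃ x, (H.dist t (ψ x) : ℝ) ≤ m

open Pool.Agent.H.MP_c7c9a4_al in
theorem result (A : Type) [Finite A] (R : Set (Word A × Word A)) (hR : R.Finite)
    (hE : ∀ x : InvM R, sigma (InvM R) x 1 ↔ x * x = x)
    (G : Type) [Group G] (e : (sigma (InvM R)).Quotient ≃* G)
    (F : Subgroup G) (h1 : F.FiniteIndex) (h2 : IsFreeGroup F) (w : Word A) :
    TreeLike (Schutz R w) := by
  obtain ⟨Δ, h⟩ := main (R := fun u v => (u, v) ∈ R) (w := w) hR
    (e.toMonoidHom.comp (sigma (InvM R)).mk') (fun x hx => (hE x).1 ((Con.eq _).1 (e.injective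
      (hx.trans (map_one e).symm)))) F
  obtain ⟨T, H, t, ψ, s, D, d⟩ := qi conn h
  refine ⟨conn (R := fun u v => (u, v) ∈ R) (w := w), T, H, t, ψ, 1 / (D + 1), 1, D, 0, 0,
    by positivity, one_pos, by positivity, le_rfl, le_rfl, fun x y => ⟨?_, ?_⟩, fun t => ?_⟩
  · have a : (((Schutz R w).dist x y : ℕ) : ℝ) ≤ (D + 1) * H.dist (ψ x) (ψ y) + D := by
      exact_mod_cast (d x y).1
    rw [sub_le_iff_le_add, one_div, inv_mul_le_iff₀ (by positivity)]
    have : (0 : ℝ) ≤ D * D := by positivity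
    nlinarith
  · have a : ((H.dist (ψ x) (ψ y) : ℕ) : ℝ) ≤ (Schutz R w).dist x y := by exact_mod_cast (d x y).2
    simpa using a
  · obtain ⟨x, rfl⟩ := s t
    exact ⟨x, by simp⟩

end Pool.Agent.Results.MP_c7c9a4_al.Yes
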